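import Pool.Agent.H25.CBase

set_option autoImplicit false

namespace Pool.Agent.Results.MP_6f953e_lc.NPHard
open Pool.Agent.H11.PT Pool.Agent.H25.CB Finset

/-- vertex names -/
abbrev V := ℕ × ℕ × ℕ

/-- weights of the matchings of the graph with edge set `G` -/
def Mat (G : Set (Sym2 V)) (w : Sym2 V → ℝ) : Set ℝ := {x | ∃ M : Finset (Sym2 V), ↑M ⊆ G ∧
  (∀ e ∈ M, ∀ f ∈ M, ∀ v, v ∈ e → v ∈ f → e = f) ∧ x = ∑ e ∈ M, w e}

/-- total values of the fractional `w`-vertex covers -/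
def Cov (W : List V) (G : Set (Sym2 V)) (w : Sym2 V → ℝ) : Set ℝ := {x | ∃ y : V → ℝ,
  (∀ v, 0 ≤ y v) ∧ (∀ u v, s(u, v) ∈ G → w s(u, v) ≤ y u + y v) ∧ x = ∑ v ∈ W.toFinset, y v}

/-- maximum matching weight equals minimum fractional cover value -/
def Stable (W : List V) (G : Set (Sym2 V)) (w : Sym2 V → ℝ) : Prop :=
  ∃ t, IsGreatest (Mat G w) t ∧ IsLeast (Cov W G w) t

/-- the weight of a vertex pair: the listed binary number, `0` if the pair is not listed -/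
def wt (L : List (V × V × List Bool)) (e : Sym2 V) : ℝ :=
  (((L.find? fun t => s(t.1, t.2.1) = e).map fun t => bin t.2.2).getD 0 : ℕ)

/-- the edge set given by a list -/
def edges (E : List (V × V)) : Set (Sym2 V) := {e | ∃ p ∈ E, e = s(p.1, p.2)}

/-- pairs of distinct vertices -/
def pairs (W : List V) : Set (Sym2 V) := {e | ¬ e.IsDiag ∧ ∀ v ∈ e, v ∈ W}

/-- the instance is (vertices, edges, weights of edges and non-edges, k) -/
def EdgeAdd (y : List V × List (V × V) × List (V × V × List Bool) × ℕ) : Prop :=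
  edges y.2.1 ⊆ pairs y.1 ∧ ∃ F : Finset (Sym2 V), ↑F ⊆ pairs y.1 \ edges y.2.1 ∧
    F.card ≤ y.2.2.2 ∧ Stable y.1 (edges y.2.1 ∪ F) (wt y.2.2.1)

section
variable {W : List V} {G : Set (Sym2 V)} {w : Sym2 V → ℝ} (hG : G ⊆ pairs W)
  {M : Finset (Sym2 V)} (m1 : ↑M ⊆ G) (m2 : ∀ e ∈ M, ∀ f ∈ M, ∀ v, v ∈ e → v ∈ f → e = f)
include hG m1 m2

theorem split (y : V → ℝ) : ∑ v ∈ W.toFinset, y v = ∑ e ∈ M, ∑ v ∈ e.toFinset, y v +
    ∑ v ∈ W.toFinset \ M.biUnion Sym2.toFinset, y v := by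
  rw [← sum_biUnion fun e he f hf h => disjoint_left.2 fun v a b => h (m2 e he f hf v
    (Sym2.mem_toFinset.1 a) (Sym2.mem_toFinset.1 b)), add_comm, sum_sdiff fun v hv => ?_]
  obtain ⟨e, he, h⟩ := mem_biUnion.1 hv
  exact List.mem_toFinset.2 ((hG (m1 he)).2 v (Sym2.mem_toFinset.1 h))

omit m2 in
theorem two (y : V → ℝ) {u v : V} (h : s(u, v) ∈ M) : ∑ x ∈ s(u, v).toFinset, y x = y u + y v := by
  rw [Sym2.toFinset_mk_eq, sum_pair (by simpa using (hG (m1 h)).1)]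

theorem slack {y : V → ℝ} (y1 : ∀ v, 0 ≤ y v) (y2 : ∀ u v, s(u, v) ∈ G → w s(u, v) ≤ y u + y v) :
    ∑ e ∈ M, w e ≤ ∑ v ∈ W.toFinset, y v ∧ (∑ e ∈ M, w e = ∑ v ∈ W.toFinset, y v →
      ∀ v ∈ W, 0 < y v → ∃ u, s(v, u) ∈ M ∧ w s(v, u) = y v + y u) := by
  have a : ∀ e ∈ M, w e ≤ ∑ v ∈ e.toFinset, y v := fun e he => by
    obtain ⟨u, v⟩ := e
    exact (y2 u v (m1 he)).trans_eq (two hG m1 y he).symm
  have b := sum_le_sum a
  have c := sum_nonneg fun v (_ : v ∈ W.toFinset \ M.biUnion Sym2.toFinset) => y1 v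
  rw [split hG m1 m2]
  refine ⟨by linarith, fun h v hv h0 => ?_⟩
  have d := (sum_eq_zero_iff_of_nonneg fun v (_ : v ∈ W.toFinset \ M.biUnion Sym2.toFinset) =>
    y1 v).1 (by linarith) v
  obtain ⟨e, he, h'⟩ := mem_biUnion.1 (by_contra fun g => h0.ne' (d (mem_sdiff.2 ⟨by simpa, g⟩)))
  obtain ⟨u, rfl⟩ := Sym2.mem_iff_exists.1 (Sym2.mem_toFinset.1 h')
  exact ⟨u, he, ((sum_eq_sum_iff_of_le a).1 (by linarith) _ he).trans (two hG m1 y he)⟩

omit m1 m2 in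
theorem stable_of {y : V → ℝ} (y1 : ∀ v, 0 ≤ y v) (y2 : ∀ u v, s(u, v) ∈ G → w s(u, v) ≤ y u + y v)
    (π : V → V) (h : ∀ v ∈ W, π (π v) = v ∧ (π v = v → y v = 0) ∧
      (π v ≠ v → s(v, π v) ∈ G ∧ w s(v, π v) = y v + y (π v))) : Stable W G w := by
  let M := (W.toFinset.filter fun v => π v ≠ v).image fun v => s(v, π v)
  have a : ∀ e ∈ M, ∃ v ∈ W, π v ≠ v ∧ e = s(v, π v) := fun e he => by
    simpa [M, and_assoc, eq_comm (b := e)] using he
  have m1 : ↑M ⊆ G := fun e he => by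
    obtain ⟨v, h1, h2, rfl⟩ := a e he
    exact ((h v h1).2.2 h2).1
  have b : ∀ e ∈ M, ∀ v ∈ e, e = s(v, π v) := fun e he v hv => by
    obtain ⟨u, h1, h2, rfl⟩ := a e he
    rcases Sym2.mem_iff.1 hv with rfl | rfl
    · rfl
    · rw [(h u h1).1, Sym2.eq_swap]
  have m2 : ∀ e ∈ M, ∀ f ∈ M, ∀ v, v ∈ e → v ∈ f → e = f := fun e he f hf v c d =>
    (b e he v c).trans (b f hf v d).symm
  have c : ∑ e ∈ M, w e = ∑ v ∈ W.toFinset, y v := by
    rw [split hG m1 m2, sum_eq_zero (s := _ \ _) fun v hv => ?_, add_zero]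
    · refine sum_congr rfl fun e he => ?_
      obtain ⟨v, h1, h2, rfl⟩ := a e he
      rw [two hG m1 y he, ((h v h1).2.2 h2).2]
    · rw [mem_sdiff] at hv
      exact (h v (by simpa using hv.1)).2.1 (by_contra fun g => hv.2 (mem_biUnion.2
        ⟨_, mem_image_of_mem _ (mem_filter.2 ⟨hv.1, g⟩), by simp⟩))
  refine ⟨_, ⟨⟨M, m1, m2, rfl⟩, ?_⟩, ⟨y, y1, y2, c⟩, ?_⟩
  · rintro _ ⟨N, n1, n2, rfl⟩
    exact (slack hG n1 n2 y1 y2).1.trans c.ge
  · rintro _ ⟨z, z1, z2, rfl⟩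
    exact (slack hG m1 m2 z1 z2).1

end

def ln (l : Lit) : V := (0, l.1, bif l.2 then 1 else 0)
def ix (φ : F3) : List (ℕ × ℕ) := List.range φ.length ×ˢ List.range 3
def vs (φ : F3) : List V := ((List.range (nv φ) ×ˢ List.range 2).map fun p => (0, p)) ++
  (ix φ).flatMap fun p => [(1, p), (2, p), (3, p), (4, p)]
def es (φ : F3) : List (V × V) := ((List.range (nv φ)).map fun x => ((0, x, 0), (0, x, 1))) ++
  (ix φ).flatMap fun p => [((1, p), (1, p.1, (p.2 + 1) % 3)), ((2, p), (1, p.1, 0)),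
    ((2, p), ln (lit φ (3 * p.1 + p.2))), ((2, p), (3, p))]
def ls (φ : F3) : List (V × V) := es φ ++ (ix φ).map fun p => ((3, p), (4, p))
def g (u v : V) : ℕ := if (u.1 = 1 ∧ v.1 = 1) ∨ 3 ≤ u.1 ∨ 3 ≤ v.1 then 2 else 1
def ws (φ : F3) : List (V × V × List Bool) := (ls φ).map fun p => (p.1, p.2, toBits (g p.1 p.2))

attribute [fun_prop] PT.toBits

theorem mem_vs {φ : F3} {v : V} : v ∈ vs φ ↔ (v.1 = 0 ∧ v.2.1 < nv φ ∧ v.2.2 < 2) ∨
    (0 < v.1 ∧ v.1 < 5 ∧ v.2.1 < φ.length ∧ v.2.2 < 3) := by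
  obtain ⟨a, b, c⟩ := v
  simp [vs, ix, and_or_left, exists_or, and_assoc]
  omega

theorem mem_es {φ : F3} {e : Sym2 V} : e ∈ edges (es φ) ↔ (∃ x < nv φ, e = s((0, x, 0), (0, x, 1))) ∨
    ∃ j < φ.length, ∃ i < 3, e = s((1, j, i), (1, j, (i + 1) % 3)) ∨ e = s((2, j, i), (1, j, 0)) ∨
      e = s((2, j, i), ln (lit φ (3 * j + i))) ∨ e = s((2, j, i), (3, j, i)) := by
  simp only [edges, es, ix, Set.mem_ofPred_eq, List.mem_append, List.mem_map, List.mem_flatMap,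
    List.mem_range, List.mem_cons, List.not_mem_nil, or_false, Prod.exists, List.mem_product]
  constructor
  · rintro ⟨_, _, _, _, _, _, ⟨x, hx, h⟩ | ⟨j, i, ⟨hj, hi⟩, h | h | h | h⟩, rfl⟩ <;> cases h
    exacts [.inl ⟨_, hx, rfl⟩, .inr ⟨_, hj, _, hi, by simp⟩, .inr ⟨_, hj, _, hi, by simp⟩,
      .inr ⟨_, hj, _, hi, by simp [ln]⟩, .inr ⟨_, hj, _, hi, by simp⟩]
  · rintro (⟨x, hx, rfl⟩ | ⟨j, hj, i, hi, rfl | rfl | rfl | rfl⟩)
    exacts [⟨_, _, _, _, _, _, .inl ⟨x, hx, rfl⟩, rfl⟩,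
      ⟨_, _, _, _, _, _, .inr ⟨j, i, ⟨hj, hi⟩, .inl rfl⟩, rfl⟩,
      ⟨_, _, _, _, _, _, .inr ⟨j, i, ⟨hj, hi⟩, .inr (.inl rfl)⟩, rfl⟩,
      ⟨_, _, _, _, _, _, .inr ⟨j, i, ⟨hj, hi⟩, .inr (.inr (.inl rfl))⟩, rfl⟩,
      ⟨_, _, _, _, _, _, .inr ⟨j, i, ⟨hj, hi⟩, .inr (.inr (.inr rfl))⟩, rfl⟩]

theorem mem_ls {φ : F3} {e : Sym2 V} : e ∈ edges (ls φ) ↔ e ∈ edges (es φ) ∨
    ∃ j < φ.length, ∃ i < 3, e = s((3, j, i), (4, j, i)) := by
  simp only [edges, ls, ix, Set.mem_ofPred_eq, List.mem_append, or_and_right, exists_or]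
  refine or_congr_right ?_
  simp [and_assoc]

open Classical in
theorem wt_eq (φ : F3) (u v : V) :
    wt (ws φ) s(u, v) = if s(u, v) ∈ edges (ls φ) then (g u v : ℝ) else 0 := by
  unfold wt
  cases h : (ws φ).find? fun t => s(t.1, t.2.1) = s(u, v) with
  | none =>
    rw [if_neg fun ⟨p, a, b⟩ => List.find?_eq_none.1 h _ (List.mem_map_of_mem a) (by simp [b])]
    simp
  | some t =>
    obtain ⟨p, a, rfl⟩ := List.mem_map.1 (List.mem_of_find?_eq_some h)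
    have b : s(p.1, p.2) = s(u, v) := by simpa only [decide_eq_true_eq] using List.find?_some h
    rw [if_pos ⟨p, a, b.symm⟩]
    simp only [Option.map_some, Option.getD_some, bin, ofDigits_toBits, Nat.cast_inj]
    rcases Sym2.eq_iff.1 b with ⟨rfl, rfl⟩ | ⟨rfl, rfl⟩
    · rfl
    · simp only [g, and_comm, or_comm]

theorem ln_eq (l : Lit) : ∃ s < 2, ln l = (0, l.1, s) ∧ (l.2 = true ↔ s = 1) := by
  obtain ⟨a, _ | _⟩ := l <;> simp [ln]

theorem val (φ : F3) : edges (ls φ) ⊆ pairs (vs φ) := fun e he => by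
  have := fun o => lit_lt φ o
  rcases mem_ls.1 he with h | ⟨j, hj, i, hi, rfl⟩
  · rcases mem_es.1 h with ⟨x, hx, rfl⟩ | ⟨j, hj, i, hi, rfl | rfl | rfl | rfl⟩
    case inr.inr.inr.inl =>
      obtain ⟨s, a, b, -⟩ := ln_eq (lit φ (3 * j + i))
      have := this (3 * j + i)
      simp [pairs, mem_vs, *]; omega
    all_goals
      refine ⟨by simp <;> omega, fun v hv => ?_⟩
      rcases Sym2.mem_iff.1 hv with rfl | rfl <;> simp [mem_vs] <;> omega
  · simp [pairs, mem_vs, *]; omega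

theorem fwd (φ : F3) (h : SAT3 φ) : EdgeAdd (vs φ, es φ, ws φ, φ.length) := by
  obtain ⟨σ, h⟩ := (sat_iff φ).1 h
  choose! c c1 c2 using h
  let F := (range φ.length).image fun j => (s((3, j, c j), (4, j, c j)) : Sym2 V)
  have a : edges (es φ) ∪ F ⊆ edges (ls φ) := by
    rintro e (h | h)
    · exact mem_ls.2 (.inl h)
    · obtain ⟨j, hj, rfl⟩ := mem_image.1 h
      exact mem_ls.2 (.inr ⟨j, mem_range.1 hj, _, c1 j (mem_range.1 hj), rfl⟩)
  refine ⟨fun e h => val φ (a (.inl h)), F, fun e h => ⟨val φ (a (.inr h)), ?_⟩,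
    card_image_le.trans (card_range _).le, stable_of (a.trans (val φ))
    (y := fun v => ((if v.1 = 0 then (if ln (v.2.1, σ v.2.1) = v then 1 else 0) else if v.1 = 1 then 1
      else if (v.1 = 2 ∧ v.2.2 ≠ c v.2.1) ∨ (v.1 = 3 ∧ v.2.2 = c v.2.1) then 2 else 0 : ℕ) : ℝ))
    (fun _ => Nat.cast_nonneg _) (fun u v h => ?_)
    (fun v => if v.1 = 0 then (0, v.2.1, 1 - v.2.2) else if v.1 = 1 then
      (if v.2.2 = 0 then (2, v.2.1, c v.2.1) else (1, v.2.1, 3 - v.2.2)) else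
      if v.2.2 = c v.2.1 then (if v.1 = 2 then (1, v.2.1, 0) else (7 - v.1, v.2)) else
      if v.1 = 4 then v else (5 - v.1, v.2)) fun v hv => ?_⟩
  · obtain ⟨j, hj, rfl⟩ := mem_image.1 h
    simp [mem_es, ln]
  · rw [wt_eq, if_pos (a h), ← Nat.cast_add, Nat.cast_le]
    rcases h with h | h
    · rcases mem_es.1 h with ⟨x, hx, h⟩ | ⟨j, hj, i, hi, h | h | h | h⟩ <;>
        rcases Sym2.eq_iff.1 h with ⟨rfl, rfl⟩ | ⟨rfl, rfl⟩
      iterate 2 cases e : σ x <;> simp [g, ln, e]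
      all_goals by_cases e : i = c j <;> simp [g, ln, e, c2 j hj] <;> omega
    · obtain ⟨j, hj, h⟩ := mem_image.1 h
      rcases Sym2.eq_iff.1 h with ⟨rfl, rfl⟩ | ⟨rfl, rfl⟩ <;> simp [g]
  · have b : ∀ u ∈ edges (es φ) ∪ ↑F, (u ∈ edges (ls φ)) = True := fun u hu => eq_true (a hu)
    obtain ⟨t, x, i⟩ := v
    rcases mem_vs.1 hv with ⟨rfl, h1, h2⟩ | ⟨h0, h1, h2, h3⟩
    · have d : s(((0, x, 0) : V), ((0, x, 1) : V)) ∈ edges (es φ) := mem_es.2 (.inl ⟨x, h1, rfl⟩)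
      have d' := Sym2.eq_swap ▸ d
      simp only at h2
      interval_cases i <;> cases e : σ x <;> simp [wt_eq, mem_ls, d, d', ln, g, e]
    · simp only at h0 h1 h2 h3
      have d := c1 x h2
      have d1 : ∀ i < 3, s(((2, x, i) : V), ((3, x, i) : V)) ∈ edges (es φ) ∧
          s(((2, x, i) : V), ((1, x, 0) : V)) ∈ edges (es φ) := fun i hi =>
        ⟨mem_es.2 (.inr ⟨x, h2, i, hi, by simp⟩), mem_es.2 (.inr ⟨x, h2, i, hi, by simp⟩)⟩
      have d2 : s(((1, x, 1) : V), ((1, x, 2) : V)) ∈ edges (es φ) :=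
        mem_es.2 (.inr ⟨x, h2, 1, by omega, by simp⟩)
      have d3 : s(((3, x, c x) : V), ((4, x, c x) : V)) ∈ F := mem_image_of_mem _ (mem_range.2 h2)
      have d4 := Sym2.eq_swap ▸ d2
      have d5 := Sym2.eq_swap ▸ d3
      have d6 := Sym2.eq_swap ▸ (d1 i h3).1
      have d7 := Sym2.eq_swap ▸ (d1 _ d).2
      interval_cases t
      · interval_cases i <;> simp [wt_eq, mem_ls, g, *] <;> norm_num
      all_goals by_cases e : i = c x <;> simp [wt_eq, mem_ls, g, *]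

theorem bwd (φ : F3) (h : EdgeAdd (vs φ, es φ, ws φ, φ.length)) : SAT3 φ := by
  obtain ⟨h1, F, h2, h3, _, ⟨⟨M, m1, m2, rfl⟩, -⟩, ⟨y, y1, y2, h4⟩, -⟩ := h
  have a := (slack (Set.union_subset h1 (h2.trans Set.diff_subset)) m1 m2 y1 y2).2 h4
  simp only at a y2 h2 h3 m1
  have b : ∀ v ∈ vs φ, 0 < y v → ∃ u, s(v, u) ∈ M ∧ s(v, u) ∈ edges (ls φ) ∧ y v + y u = g v u :=
    fun v hv h0 => (a v hv h0).imp fun u ⟨c, d⟩ => by
      rw [wt_eq] at d
      split_ifs at d with e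
      · exact ⟨c, e, d.symm⟩
      · linarith [y1 u]
  have c : ∀ u v, s(u, v) ∈ edges (es φ) → (g u v : ℝ) ≤ y u + y v := fun u v h => by
    have := y2 u v (.inl h)
    rwa [wt_eq, if_pos (mem_ls.2 (.inl h))] at this
  have d : ∀ {v u u'}, s(v, u) ∈ M → s(v, u') ∈ M → u = u' := fun h h' =>
    Sym2.congr_right.1 (m2 _ h _ h' _ (Sym2.mem_mk_left ..) (Sym2.mem_mk_left ..))
  have sw : ∀ {u v}, s(u, v) ∈ M → s(v, u) ∈ M := fun h => Sym2.eq_swap ▸ h
  have p : ∀ j < φ.length, ∀ i < 3, ∀ u, u.1 < 2 → s((2, j, i), u) ∈ M → y (2, j, i) ≤ 1 →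
      s((3, j, i), (4, j, i)) ∈ F := fun j hj i hi u hu h h' => by
    have e := c (2, j, i) (3, j, i) (mem_es.2 (.inr ⟨j, hj, i, hi, by simp⟩))
    simp [g] at e
    obtain ⟨v, v1, v2, -⟩ := b (3, j, i) (by simp [mem_vs, *]) (by linarith)
    have v3 : v = (2, j, i) ∨ v = (4, j, i) := by
      simp [mem_ls, mem_es, ln, and_or_left, exists_or, and_assoc] at v2
      tauto
    rcases v3 with rfl | rfl
    · rw [d h (sw v1)] at hu
      simp at hu
    · exact (m1 v1).resolve_left (by simp [mem_es, ln])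
  have q : ∀ j < φ.length, ∃ i < 3, s((2, j, i), (1, j, 0)) ∈ M ∧ y (2, j, i) = 0 := fun j hj => by
    have e0 := c (1, j, 0) (1, j, 1) (mem_es.2 (.inr ⟨j, hj, 0, by simp⟩))
    have e1 := c (1, j, 1) (1, j, 2) (mem_es.2 (.inr ⟨j, hj, 1, by simp⟩))
    have e2 := c (1, j, 2) (1, j, 0) (mem_es.2 (.inr ⟨j, hj, 2, by simp⟩))
    have n : ∀ r < 3, 0 < y (1, j, r) → (∃ k < 3, k ≠ r ∧ s((1, j, r), (1, j, k)) ∈ M ∧
        y (1, j, r) + y (1, j, k) = 2) ∨ r = 0 ∧ ∃ i < 3, s((2, j, i), (1, j, 0)) ∈ M ∧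
        y (1, j, 0) + y (2, j, i) = 1 := fun r hr h => by
      obtain ⟨v, v1, v2, v3⟩ := b (1, j, r) (by simp [mem_vs, *]) h
      rcases mem_ls.1 v2 with v2 | ⟨_, _, _, _, v2⟩
      · rcases mem_es.1 v2 with ⟨x, hx, h⟩ | ⟨j, hj, i, hi, h | h | h | h⟩ <;>
          rcases Sym2.eq_iff.1 h with ⟨o, rfl⟩ | ⟨o, rfl⟩ <;> simp [ln] at o <;>
          obtain ⟨rfl, rfl⟩ := o
        · exact .inl ⟨_, by omega, by omega, v1, by simpa [g] using v3⟩
        · exact .inl ⟨_, by omega, by omega, v1, by simpa [g] using v3⟩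
        · exact .inr ⟨rfl, i, hi, sw v1, by simpa [g] using v3⟩
      · simp at v2
    have x1 : ∀ r k l, s((1, j, r), (1, j, k)) ∈ M → s((1, j, r), (1, j, l)) ∈ M → k = l :=
      fun r k l a b => by simpa using d a b
    have n1 := n 1 (by omega)
    have n2 := n 2 (by omega)
    have z0 := y1 (1, j, 0)
    simp [g] at e0 e1 e2 n1 n2
    by_cases e : ∃ i < 3, s((2, j, i), (1, j, 0)) ∈ M ∧ y (1, j, 0) + y (2, j, i) = 1
    · obtain ⟨i, hi, a, b⟩ := e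
      have z := y1 (2, j, i)
      obtain ⟨k, k1, k2, k3, k4⟩ := n1 (by linarith)
      interval_cases k
      · simpa using d (sw a) (sw k3)
      · simp at k2
      · exact ⟨i, hi, a, by linarith⟩
    · exfalso
      have n0 := fun h => (n 0 (by omega) h).resolve_right fun h => e h.2
      have t : ∀ r < 3, ∀ k < 3, k ≠ r → s((1, j, r), (1, j, k)) ∈ M →
          y (1, j, r) + y (1, j, k) = 2 → False := fun r hr k hk h1 h2 h3 => by
        have u : 0 < y (1, j, 3 - r - k) := by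
          interval_cases r <;> interval_cases k <;> simp at h1 ⊢ <;> linarith
        obtain ⟨l, l1, l2, l3, -⟩ := (n _ (by omega) u).resolve_right fun h => e h.2
        by_cases l = r
        · subst l; have := x1 _ _ _ h2 (sw l3); omega
        · obtain rfl : l = k := by omega
          have := x1 _ _ _ (sw h2) (sw l3); omega
      rcases z0.eq_or_lt with z | z
      · obtain ⟨k, k1, k2, k3, k4⟩ := n1 (by linarith)
        exact t 1 (by omega) k k1 k2 k3 k4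
      · obtain ⟨k, k1, k2, k3, k4⟩ := n0 z
        exact t 0 (by omega) k k1 k2 k3 k4
  choose! k k1 k2 k3 using q
  have r : (range φ.length).image (fun j => (s((3, j, k j), (4, j, k j)) : Sym2 V)) = F :=
    eq_of_subset_of_card_le (image_subset_iff.2 fun j hj => p j (mem_range.1 hj) _
      (k1 j (mem_range.1 hj)) _ (by simp) (k2 j (mem_range.1 hj)) (by simp [k3 j (mem_range.1 hj)]))
      (by rwa [card_image_of_injective _ fun a b h => by simp at h; exact h.1, card_range])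
  refine (sat_iff φ).2 ⟨fun x => decide (0 < y (0, x, 1)), fun j hj => ⟨k j, k1 j hj, ?_⟩⟩
  have e := c _ _ (mem_es.2 (.inr ⟨j, hj, _, k1 j hj, .inr (.inr (.inl rfl))⟩))
  obtain ⟨s, s1, s2, s3⟩ := ln_eq (lit φ (3 * j + k j))
  rw [s2, k3 j hj] at e
  simp [g] at e
  obtain ⟨v, v1, v2, v3⟩ := b (0, _, s) (by simp [mem_vs, lit_lt, s1]) (one_pos.trans_le e)
  have z := y1 v
  rcases mem_ls.1 v2 with v2 | ⟨_, _, _, _, v2⟩
  · rcases mem_es.1 v2 with ⟨x, hx, h⟩ | ⟨j', hj', i, hi, h | h | h | h⟩ <;>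
      rcases Sym2.eq_iff.1 h with ⟨o, rfl⟩ | ⟨o, rfl⟩ <;> try (simp at o; done)
    · obtain ⟨rfl, rfl⟩ : _ = x ∧ s = 0 := by simpa using o
      simp [g] at v3 s3
      rw [s3]
      exact decide_eq_false (by linarith)
    · obtain ⟨rfl, rfl⟩ : _ = x ∧ s = 1 := by simpa using o
      rw [s3.2 rfl]
      exact decide_eq_true (by linarith)
    · simp [g] at v3
      have := p j' hj' i hi _ (by simp) (sw v1) (by linarith)
      rw [← r] at this
      obtain ⟨j'', -, h'⟩ := mem_image.1 this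
      obtain ⟨rfl, rfl⟩ : j'' = j' ∧ k j'' = i := by simpa using h'
      simpa using d (sw v1) (k2 _ hj')
  · simp at v2

theorem result : NPHard EdgeAdd :=
  (hard_SAT3.red (fun φ => (vs φ, es φ, ws φ, φ.length))
    (by unfold ws ls es vs ix g ln; fun_prop) fun φ => ⟨fwd φ, bwd φ⟩).npHard

end Pool.Agent.Results.MP_6f953e_lc.NPHard
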